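import Pool.Agent.H11.NY.Targets

set_option autoImplicit false

open Equiv (Perm)

namespace Pool.Agent.H58.NY.DEN

open Pool.Agent.H11.NY

theorem pow_red {Ω : Type} (a : Perm Ω) (q k : ℕ) (ha : a ^ q = 1) : a ^ k = a ^ (k % q) := by
  conv_lhs => rw [← Nat.div_add_mod k q]
  rw [pow_add, pow_mul, ha, one_pow, one_mul]

/-- the orbit of `x` under `a`, `h` -/
def orb {Ω : Type} [DecidableEq Ω] (a h : Perm Ω) (q s : ℕ) (x : Ω) : Finset Ω :=
  (Finset.range q ×ˢ Finset.range s).image (fun kl => (a ^ kl.1 * h ^ kl.2) x)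

theorem card_orb {Ω : Type} [DecidableEq Ω] (a h : Perm Ω) (q s : ℕ) (x : Ω) :
    (orb a h q s x).card ≤ q * s := by
  refine Finset.card_image_le.trans ?_
  rw [Finset.card_product, Finset.card_range, Finset.card_range]

theorem mem_orb {Ω : Type} [DecidableEq Ω] (a h : Perm Ω) (q s : ℕ) (hq : 0 < q) (hs : 0 < s)
    (ha : a ^ q = 1) (hh : h ^ s = 1) (x : Ω) (k l : ℕ) :
    (a ^ k * h ^ l) x ∈ orb a h q s x := by
  unfold orb
  refine Finset.mem_image.mpr ⟨(k % q, l % s), ?_, ?_⟩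
  · rw [Finset.mem_product]
    exact ⟨Finset.mem_range.mpr (Nat.mod_lt _ hq), Finset.mem_range.mpr (Nat.mod_lt _ hs)⟩
  · show (a ^ (k % q) * h ^ (l % s)) x = _
    rw [← pow_red a q k ha, ← pow_red h s l hh]

/-- the relevant elements `h a ^ κ` and `a` -/
def tt {Ω : Type} (a h : Perm Ω) (q : ℕ) (κ : Fin (q + 1)) : Perm Ω :=
  if κ.val < q then h * a ^ κ.val else a

theorem tt_form {Ω : Type} (a h : Perm Ω) (q : ℕ) (hc : a * h = h * a) (κ : Fin (q + 1)) :
    ∃ k l : ℕ, tt a h q κ = a ^ k * h ^ l := by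
  have hcomm : Commute a h := hc
  unfold tt
  split_ifs with h1
  · exact ⟨κ.val, 1, by rw [pow_one]; exact ((hcomm.pow_left κ.val).eq).symm⟩
  · exact ⟨1, 0, by rw [pow_one, pow_zero, mul_one]⟩

/-- the index type -/
abbrev Idx (q : ℕ) : Type := (Fin (q + 1) × Bool) × Option (Fin (q + 2))

/-- the permutations of the indices -/
def sg (q : ℕ) (i : Fin (q + 2)) : Perm (Idx q) :=
  Equiv.prodCongrRight (fun _ => Equiv.swap none (some i))

theorem sign_sg (q : ℕ) (i : Fin (q + 2)) : Equiv.Perm.sign (sg q i) = 1 := by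
  unfold sg
  rw [Equiv.Perm.sign_prodCongrRight]
  have h1 : ∀ k : Fin (q + 1) × Bool,
      Equiv.Perm.sign (Equiv.swap (none : Option (Fin (q + 2))) (some i)) = -1 := by
    intro _
    exact Equiv.Perm.sign_swap (by simp)
  rw [Finset.prod_congr rfl (fun k _ => h1 k), Finset.prod_const, Finset.card_univ,
    Fintype.card_prod, Fintype.card_bool, mul_comm, pow_mul]
  norm_num

theorem sg_none (q : ℕ) (i : Fin (q + 2)) (tb : Fin (q + 1) × Bool) :
    sg q i (tb, none) = (tb, some i) := by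
  show (tb, Equiv.swap none (some i) none) = _
  rw [Equiv.swap_apply_left]

theorem sg_some (q : ℕ) (i j : Fin (q + 2)) (hij : j ≠ i) (tb : Fin (q + 1) × Bool) :
    sg q i (tb, some j) = (tb, some j) := by
  show (tb, Equiv.swap none (some i) (some j)) = _
  rw [Equiv.swap_apply_of_ne_of_ne (by simp) (by simpa using hij)]

theorem core (Ω : Type) [Fintype Ω] [DecidableEq Ω] (hPLA : T_PLA) (e : ℕ)
    (q s : ℕ) (a h : Perm Ω) (hq : 0 < q) (hqe : q ≤ e) (hs : 0 < s) (hse : s ≤ e)
    (ha : a ^ q = 1) (hh : h ^ s = 1) (hc : a * h = h * a)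
    (ω : Idx q → Ω) (h1 : ∀ i, tt a h q i.1.1 (ω i) ≠ ω i)
    (h2 : ∀ i j, i ≠ j → ∀ k l : ℕ, (a ^ k * h ^ l) (ω j) ≠ ω i)
    (hΩ : Fintype.card (Idx q) * e ^ 2 + 2 ≤ Fintype.card Ω)
    (U : Subgroup (Perm Ω)) (hU : TCond q a h U) (Φ : Finset Ω)
    (hΦ : Fintype.card (Idx q) * e ^ 2 ≤ Φ.card) :
    ∃ u ∈ U, u ≠ 1 ∧ u.support ⊆ Φ := by
  classical
  have hinj : Function.Injective ω := by
    intro i j hij
    by_contra hne
    refine h2 i j hne 0 0 ?_
    rw [pow_zero, pow_zero, mul_one, Equiv.Perm.one_apply, hij]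
  let emb : Idx q ↪ Ω := ⟨ω, hinj⟩
  let y : Fin (q + 2) → Perm Ω := fun i => (sg q i).viaFintypeEmbedding emb
  have hyalt : ∀ i, y i ∈ alternatingGroup Ω := by
    intro i
    rw [Equiv.Perm.mem_alternatingGroup]
    show Equiv.Perm.sign ((sg q i).viaFintypeEmbedding emb) = 1
    rw [Equiv.Perm.viaFintypeEmbedding_sign, sign_sg]
  have hynone : ∀ i tb, y i (ω (tb, none)) = ω (tb, some i) := by
    intro i tb
    have := Equiv.Perm.viaFintypeEmbedding_apply_image (sg q i) emb (tb, none)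
    rw [sg_none] at this
    exact this
  have hysome : ∀ i j, j ≠ i → ∀ tb, y i (ω (tb, some j)) = ω (tb, some j) := by
    intro i j hij tb
    have := Equiv.Perm.viaFintypeEmbedding_apply_image (sg q i) emb (tb, some j)
    rw [sg_some q i j hij] at this
    exact this
  have hyfix : ∀ i p, p ∉ Set.range ω → y i p = p := by
    intro i p hp
    exact Equiv.Perm.viaFintypeEmbedding_apply_notMem_range (sg q i) emb hp
  set W : Finset Ω := Finset.univ.biUnion (fun i : Idx q => orb a h q s (ω i)) with hW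
  have hWc : W.card ≤ Fintype.card (Idx q) * e ^ 2 := by
    calc W.card ≤ ∑ i : Idx q, (orb a h q s (ω i)).card := Finset.card_biUnion_le
      _ ≤ ∑ _i : Idx q, e ^ 2 := by
          refine Finset.sum_le_sum fun i _ => (card_orb a h q s (ω i)).trans ?_
          rw [pow_two]; exact Nat.mul_le_mul hqe hse
      _ = Fintype.card (Idx q) * e ^ 2 := by
          rw [Finset.sum_const, Finset.card_univ, smul_eq_mul]
  have hWmem : ∀ i k l, (a ^ k * h ^ l) (ω i) ∈ W := by
    intro i k l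
    rw [hW]
    exact Finset.mem_biUnion.mpr ⟨i, Finset.mem_univ i, mem_orb a h q s hq hs ha hh (ω i) k l⟩
  have hWω : ∀ i, ω i ∈ W := by
    intro i
    have := hWmem i 0 0
    rwa [pow_zero, pow_zero, mul_one, Equiv.Perm.one_apply] at this
  have hcomm : Commute a h := hc
  have hWinv : ∀ κ, ∀ w ∈ W, tt a h q κ w ∈ W := by
    intro κ w hw
    obtain ⟨k, l, hkl⟩ := tt_form a h q hc κ
    rw [hW] at hw
    obtain ⟨i, _, hi⟩ := Finset.mem_biUnion.mp hw
    unfold orb at hi
    obtain ⟨⟨k', l'⟩, _, hi'⟩ := Finset.mem_image.mp hi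
    rw [← hi', hkl]
    have h3 : (a ^ k * h ^ l) * (a ^ k' * h ^ l') = a ^ (k + k') * h ^ (l + l') := by
      have h4 : h ^ l * a ^ k' = a ^ k' * h ^ l := ((hcomm.pow_pow k' l).eq).symm
      calc (a ^ k * h ^ l) * (a ^ k' * h ^ l') = a ^ k * (h ^ l * a ^ k') * h ^ l' := by
            simp only [mul_assoc]
        _ = a ^ k * (a ^ k' * h ^ l) * h ^ l' := by rw [h4]
        _ = _ := by rw [pow_add, pow_add]; simp only [mul_assoc]
    have h5 : (a ^ k * h ^ l) ((a ^ k' * h ^ l') (ω i)) = (a ^ (k + k') * h ^ (l + l')) (ω i) := by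
      rw [← h3]; rfl
    show (a ^ k * h ^ l) ((a ^ k' * h ^ l') (ω i)) ∈ W
    rw [h5]
    exact hWmem i _ _
  -- points moved by tt are outside the range
  have hout : ∀ i : Idx q, tt a h q i.1.1 (ω i) ∉ Set.range ω := by
    rintro i ⟨j, hj⟩
    by_cases hji : j = i
    · rw [hji] at hj
      exact h1 i hj.symm
    · obtain ⟨k, l, hkl⟩ := tt_form a h q hc i.1.1
      refine h2 j i hji k l ?_
      rw [← hkl]
      exact hj.symm
  -- the permutation x
  have hcardW : Fintype.card {w // w ∈ W} ≤ Fintype.card {w // w ∈ Φ} := by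
    rw [Fintype.card_coe, Fintype.card_coe]
    exact hWc.trans hΦ
  obtain ⟨g₀⟩ := Function.Embedding.nonempty_of_card_le hcardW
  obtain ⟨x, hxalt, hx⟩ := hPLA Ω {w // w ∈ W} (Function.Embedding.subtype _)
    (g₀.trans (Function.Embedding.subtype _)) (by
      rw [Fintype.card_coe]
      exact le_trans (Nat.add_le_add_right hWc 2) hΩ)
  have hxΦ : ∀ w ∈ W, x w ∈ Φ := by
    intro w hw
    have := hx ⟨w, hw⟩
    have h3 : x w = (g₀ ⟨w, hw⟩ : Ω) := this
    rw [h3]
    exact (g₀ ⟨w, hw⟩).2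
  -- pigeonhole
  have hc1 : ∀ i : Fin (q + 2), ∃ κ : Fin (q + 1),
      (x * y i) * tt a h q κ * (x * y i)⁻¹ ∈ U := by
    intro i
    rcases hU (x * y i) (mul_mem hxalt (hyalt i)) with h3 | ⟨κ, hκ, h3⟩
    · refine ⟨Fin.last q, ?_⟩
      have h4 : tt a h q (Fin.last q) = a := by
        unfold tt
        rw [if_neg]
        rw [Fin.val_last]; exact lt_irrefl q
      rw [h4]; exact h3
    · refine ⟨⟨κ, by omega⟩, ?_⟩
      have h4 : tt a h q ⟨κ, by omega⟩ = h * a ^ κ := by
        unfold tt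
        rw [if_pos]
        exact hκ
      rw [h4]; exact h3
  choose c hcc using hc1
  obtain ⟨i, j, hij, hcij⟩ := Fintype.exists_ne_map_eq_of_card_lt c (by
    rw [Fintype.card_fin, Fintype.card_fin]; omega)
  set t := c i with ht
  have hUi : (x * y i) * tt a h q t * (x * y i)⁻¹ ∈ U := hcc i
  have hUj : (x * y j) * tt a h q t * (x * y j)⁻¹ ∈ U := by
    rw [hcij]; exact hcc j
  refine ⟨(x * y i) * tt a h q t * (x * y i)⁻¹ * ((x * y j) * tt a h q t * (x * y j)⁻¹)⁻¹,
    mul_mem hUi (inv_mem hUj), ?_, ?_⟩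
  · intro hone
    have heq := mul_inv_eq_one.mp hone
    have hev := congrArg (fun f : Perm Ω => f (x (ω ((t, false), some i)))) heq
    have hL : ((x * y i) * tt a h q t * (x * y i)⁻¹) (x (ω ((t, false), some i)))
        = x (tt a h q t (ω ((t, false), none))) := by
      have h3 : (x * y i)⁻¹ (x (ω ((t, false), some i))) = ω ((t, false), none) := by
        rw [Equiv.Perm.inv_eq_iff_eq, Equiv.Perm.mul_apply, hynone]
      rw [Equiv.Perm.mul_apply, Equiv.Perm.mul_apply, h3, Equiv.Perm.mul_apply,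
        hyfix i _ (hout ((t, false), none))]
    have hR : ((x * y j) * tt a h q t * (x * y j)⁻¹) (x (ω ((t, false), some i)))
        = x (tt a h q t (ω ((t, false), some i))) := by
      have h3 : (x * y j)⁻¹ (x (ω ((t, false), some i))) = ω ((t, false), some i) := by
        rw [Equiv.Perm.inv_eq_iff_eq, Equiv.Perm.mul_apply, hysome j i hij]
      rw [Equiv.Perm.mul_apply, Equiv.Perm.mul_apply, h3, Equiv.Perm.mul_apply,
        hyfix j _ (hout ((t, false), some i))]
    have hev' : x (tt a h q t (ω ((t, false), none))) =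
        x (tt a h q t (ω ((t, false), some i))) := by
      rw [← hL, ← hR]; exact hev
    have h4 := hinj ((tt a h q t).injective (x.injective hev'))
    simp at h4
  · intro p hp
    by_contra hpΦ
    apply Equiv.Perm.mem_support.mp hp
    set r := x⁻¹ p with hr
    have hxr : x r = p := by rw [hr]; exact Equiv.apply_symm_apply x p
    have hrW : r ∉ W := by
      intro hrW
      exact hpΦ (hxr ▸ hxΦ r hrW)
    have hfix : ∀ k p', p' ∉ W → y k p' = p' := by
      intro k p' hp'
      refine hyfix k p' ?_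
      rintro ⟨idx, rfl⟩
      exact hp' (hWω idx)
    have hfixinv : ∀ k p', p' ∉ W → (x * y k)⁻¹ (x p') = p' := by
      intro k p' hp'
      rw [Equiv.Perm.inv_eq_iff_eq, Equiv.Perm.mul_apply, hfix k p' hp']
    set r' := (tt a h q t)⁻¹ r with hr'
    have hr't : tt a h q t r' = r := by rw [hr']; exact Equiv.apply_symm_apply _ r
    have hr'W : r' ∉ W := by
      intro h3
      exact hrW (hr't ▸ hWinv t r' h3)
    have hB : ((x * y j) * tt a h q t * (x * y j)⁻¹)⁻¹ p = x r' := by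
      rw [Equiv.Perm.inv_eq_iff_eq, Equiv.Perm.mul_apply, Equiv.Perm.mul_apply, hfixinv j r' hr'W,
        hr't, Equiv.Perm.mul_apply, hfix j r hrW, hxr]
    rw [Equiv.Perm.mul_apply, hB, Equiv.Perm.mul_apply, Equiv.Perm.mul_apply, hfixinv i r' hr'W,
      hr't, Equiv.Perm.mul_apply, hfix i r hrW, hxr]

theorem pf_den : T_SEL → T_PLA → T_DEN := by
  intro hSEL hPLA e
  choose BS hBS using hSEL
  set M : ℕ := ∑ q ∈ Finset.range (e + 1), Fintype.card (Idx q) * e ^ 2 with hM
  set B₀ : ℕ := ∑ q ∈ Finset.range (e + 1), BS e (Fintype.card (Idx q)) with hB₀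
  refine ⟨M, B₀ + M + 2, ?_⟩
  intro Ω _ _ q s a h hLP U hU Φ hΦ
  obtain ⟨hqp, hqe, hs, hse, ha, hh, hc, hBa, hBh⟩ := hLP
  have hq : 0 < q := hqp.pos
  have hmem : q ∈ Finset.range (e + 1) := Finset.mem_range.mpr (by omega)
  have hM1 : Fintype.card (Idx q) * e ^ 2 ≤ M :=
    Finset.single_le_sum (f := fun q => Fintype.card (Idx q) * e ^ 2)
      (fun _ _ => Nat.zero_le _) hmem
  have hB1 : BS e (Fintype.card (Idx q)) ≤ B₀ :=
    Finset.single_le_sum (f := fun q => BS e (Fintype.card (Idx q)))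
      (fun _ _ => Nat.zero_le _) hmem
  let e' : Idx q ≃ Fin (Fintype.card (Idx q)) := Fintype.equivFin (Idx q)
  obtain ⟨ω₀, h1, h2⟩ := hBS e (Fintype.card (Idx q)) Ω a h q s hq hqe hs hse ha hh hc
    (fun k => tt a h q (e'.symm k).1.1) (by
      intro k
      unfold tt
      split_ifs with h3
      · have := hBh _ h3; omega
      · omega)
  refine core Ω hPLA e q s a h hq hqe hs hse ha hh hc (fun i => ω₀ (e' i)) ?_ ?_ ?_ U hU Φ
    (hM1.trans hΦ)
  · intro i
    have := h1 (e' i)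
    simpa using this
  · intro i j hij k l
    exact h2 (e' i) (e' j) (fun h3 => hij (e'.injective h3)) k l
  · have h3 : a.support.card ≤ Fintype.card Ω := Finset.card_le_univ _
    omega

end Pool.Agent.H58.NY.DEN
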