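import Pool.Agent.H11.NY.Targets

set_option autoImplicit false

open Equiv (Perm)

namespace Pool.Agent.H58.NY.PLA

open Pool.Agent.H11.NY

theorem pf_pla : T_PLA := by
  intro Ω ι _ _ _ f g hcard
  classical
  let e : {x // x ∈ Set.range f} ≃ {x // x ∈ Set.range g} :=
    (Equiv.ofInjective f f.injective).symm.trans (Equiv.ofInjective g g.injective)
  let w₀ : Perm Ω := e.extendSubtype
  have hw₀ : ∀ i, w₀ (f i) = g i := by
    intro i
    have h1 : f i ∈ Set.range f := ⟨i, rfl⟩
    show e.extendSubtype (f i) = g i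
    rw [Equiv.extendSubtype_apply_of_mem e (f i) h1]
    have h2 : (Equiv.ofInjective f f.injective).symm ⟨f i, h1⟩ = i :=
      Equiv.ofInjective_symm_apply f.injective i
    show ((Equiv.ofInjective g g.injective) ((Equiv.ofInjective f f.injective).symm ⟨f i, h1⟩) : Ω)
      = g i
    rw [h2]
    rfl
  by_cases hs : Equiv.Perm.sign w₀ = 1
  · exact ⟨w₀, Equiv.Perm.mem_alternatingGroup.mpr hs, hw₀⟩
  · have hs' : Equiv.Perm.sign w₀ = -1 := by
      rcases Int.units_eq_one_or (Equiv.Perm.sign w₀) with h | h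
      · exact absurd h hs
      · exact h
    have hrange : (Finset.univ.map g).card = Fintype.card ι := by
      rw [Finset.card_map, Finset.card_univ]
    have hcompl : 1 < ((Finset.univ.map g)ᶜ : Finset Ω).card := by
      rw [Finset.card_compl, hrange]; omega
    obtain ⟨x, hx, y, hy, hxy⟩ := Finset.one_lt_card.mp hcompl
    rw [Finset.mem_compl] at hx hy
    refine ⟨Equiv.swap x y * w₀, ?_, ?_⟩
    · rw [Equiv.Perm.mem_alternatingGroup, Equiv.Perm.sign_mul, Equiv.Perm.sign_swap hxy, hs']
      rfl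
    · intro i
      rw [Equiv.Perm.mul_apply, hw₀ i]
      apply Equiv.swap_apply_of_ne_of_ne
      · intro h
        exact hx (Finset.mem_map.mpr ⟨i, Finset.mem_univ i, h⟩)
      · intro h
        exact hy (Finset.mem_map.mpr ⟨i, Finset.mem_univ i, h⟩)

end Pool.Agent.H58.NY.PLA
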