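import Pool.Agent.H11.NY.Targets

set_option autoImplicit false

open Equiv (Perm)

namespace Pool.Agent.H58.NY.SEL

open Pool.Agent.H11.NY

theorem pow_red {Ω : Type} (a : Perm Ω) (q k : ℕ) (ha : a ^ q = 1) : a ^ k = a ^ (k % q) := by
  conv_lhs => rw [← Nat.div_add_mod k q]
  rw [pow_add, pow_mul, ha, one_pow, one_mul]

/-- the orbit of `x` under `a`, `h` -/
def orb {Ω : Type} [DecidableEq Ω] (a h : Perm Ω) (q s : ℕ) (x : Ω) : Finset Ω :=
  (Finset.range q ×ˢ Finset.range s).image (fun kl => (a ^ kl.1 * h ^ kl.2) x)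

theorem card_orb {Ω : Type} [DecidableEq Ω] (a h : Perm Ω) (q s : ℕ) (x : Ω) :
    (orb a h q s x).card ≤ q * s := by
  refine Finset.card_image_le.trans ?_
  rw [Finset.card_product, Finset.card_range, Finset.card_range]

theorem mem_orb {Ω : Type} [DecidableEq Ω] (a h : Perm Ω) (q s : ℕ) (hq : 0 < q) (hs : 0 < s)
    (ha : a ^ q = 1) (hh : h ^ s = 1) (x : Ω) (k l : ℕ) :
    (a ^ k * h ^ l) x ∈ orb a h q s x := by
  unfold orb
  refine Finset.mem_image.mpr ⟨(k % q, l % s), ?_, ?_⟩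
  · rw [Finset.mem_product]
    exact ⟨Finset.mem_range.mpr (Nat.mod_lt _ hq), Finset.mem_range.mpr (Nat.mod_lt _ hs)⟩
  · show (a ^ (k % q) * h ^ (l % s)) x = _
    rw [← pow_red a q k ha, ← pow_red h s l hh]

/-- symmetry -/
theorem rel_symm {Ω : Type} (a h : Perm Ω) (q s : ℕ) (hq : 0 < q) (hs : 0 < s)
    (ha : a ^ q = 1) (hh : h ^ s = 1) (hc : a * h = h * a) (x y : Ω) (k l : ℕ)
    (hxy : (a ^ k * h ^ l) x = y) :
    (a ^ ((q - 1) * k) * h ^ ((s - 1) * l)) y = x := by
  have hcomm : Commute a h := hc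
  rw [← hxy]
  have h1 : (a ^ ((q - 1) * k) * h ^ ((s - 1) * l)) * (a ^ k * h ^ l) = 1 := by
    have h2 : h ^ ((s - 1) * l) * a ^ k = a ^ k * h ^ ((s - 1) * l) :=
      ((hcomm.pow_pow k ((s - 1) * l)).eq).symm
    calc (a ^ ((q - 1) * k) * h ^ ((s - 1) * l)) * (a ^ k * h ^ l)
        = a ^ ((q - 1) * k) * (h ^ ((s - 1) * l) * a ^ k) * h ^ l := by
          simp only [mul_assoc]
      _ = a ^ ((q - 1) * k) * (a ^ k * h ^ ((s - 1) * l)) * h ^ l := by rw [h2]
      _ = (a ^ ((q - 1) * k) * a ^ k) * (h ^ ((s - 1) * l) * h ^ l) := by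
          simp only [mul_assoc]
      _ = a ^ (q * k) * h ^ (s * l) := by
          rw [← pow_add, ← pow_add]
          congr 2
          · obtain ⟨q', rfl⟩ : ∃ q', q = q' + 1 := ⟨q - 1, by omega⟩
            simp only [Nat.add_sub_cancel]; ring
          · obtain ⟨s', rfl⟩ : ∃ s', s = s' + 1 := ⟨s - 1, by omega⟩
            simp only [Nat.add_sub_cancel]; ring
      _ = 1 := by rw [pow_mul, pow_mul, ha, hh, one_pow, one_pow, mul_one]
  have h3 := congrArg (fun f : Perm Ω => f x) h1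
  simpa [Equiv.Perm.mul_apply] using h3

theorem aux (e : ℕ) (Ω : Type) [Fintype Ω] [DecidableEq Ω]
    (a h : Perm Ω) (q s : ℕ) (hq : 0 < q) (hqe : q ≤ e) (hs : 0 < s) (hse : s ≤ e)
    (ha : a ^ q = 1) (hh : h ^ s = 1) (hc : a * h = h * a) :
    ∀ m : ℕ, ∀ t : Fin m → Perm Ω, (∀ i, m * e ^ 2 + 1 ≤ (t i).support.card) →
    ∃ ω : Fin m → Ω, (∀ i, t i (ω i) ≠ ω i) ∧
      ∀ i j, i ≠ j → ∀ k l : ℕ, (a ^ k * h ^ l) (ω j) ≠ ω i := by
  intro m
  induction m with
  | zero =>
    intro t _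
    exact ⟨fun i => i.elim0, fun i => i.elim0, fun i => i.elim0⟩
  | succ m ih =>
    intro t ht
    obtain ⟨ω, h1, h2⟩ := ih (fun i => t i.castSucc) (fun i => by
      refine le_trans ?_ (ht i.castSucc)
      have : m * e ^ 2 ≤ (m + 1) * e ^ 2 := Nat.mul_le_mul_right _ (Nat.le_succ m)
      omega)
    set W : Finset Ω := Finset.univ.biUnion (fun i => orb a h q s (ω i)) with hW
    have hWc : W.card ≤ m * e ^ 2 := by
      calc W.card ≤ ∑ i : Fin m, (orb a h q s (ω i)).card := Finset.card_biUnion_le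
        _ ≤ ∑ _i : Fin m, e ^ 2 := by
            refine Finset.sum_le_sum fun i _ => (card_orb a h q s (ω i)).trans ?_
            rw [pow_two]; exact Nat.mul_le_mul hqe hse
        _ = m * e ^ 2 := by
            rw [Finset.sum_const, Finset.card_univ, Fintype.card_fin, smul_eq_mul]
    obtain ⟨x, hx, hxW⟩ : ∃ x ∈ (t (Fin.last m)).support, x ∉ W := by
      by_contra hcon
      push Not at hcon
      have h3 : (t (Fin.last m)).support ⊆ W := fun y hy => hcon y hy
      have h4 := Finset.card_le_card h3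
      have h5 := ht (Fin.last m)
      have : m * e ^ 2 ≤ (m + 1) * e ^ 2 := Nat.mul_le_mul_right _ (Nat.le_succ m)
      omega
    have hno : ∀ i : Fin m, ∀ k l : ℕ, (a ^ k * h ^ l) (ω i) ≠ x := by
      intro i k l hk
      apply hxW
      rw [hW]
      refine Finset.mem_biUnion.mpr ⟨i, Finset.mem_univ i, ?_⟩
      rw [← hk]
      exact mem_orb a h q s hq hs ha hh (ω i) k l
    have hno' : ∀ i : Fin m, ∀ k l : ℕ, (a ^ k * h ^ l) x ≠ ω i := by
      intro i k l hk
      exact hno i _ _ (rel_symm a h q s hq hs ha hh hc x (ω i) k l hk)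
    refine ⟨Fin.snoc (α := fun _ => Ω) ω x, ?_, ?_⟩
    · intro i
      refine Fin.lastCases ?_ (fun i => ?_) i
      · rw [Fin.snoc_last]
        exact Equiv.Perm.mem_support.mp hx
      · rw [Fin.snoc_castSucc]
        exact h1 i
    · intro i j
      refine Fin.lastCases ?_ (fun i => ?_) i
      · refine Fin.lastCases ?_ (fun j => ?_) j
        · intro hne; exact absurd rfl hne
        · intro _ k l
          rw [Fin.snoc_last, Fin.snoc_castSucc]
          exact hno j k l
      · refine Fin.lastCases ?_ (fun j => ?_) j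
        · intro _ k l
          rw [Fin.snoc_last, Fin.snoc_castSucc]
          exact hno' i k l
        · intro hne k l
          rw [Fin.snoc_castSucc, Fin.snoc_castSucc]
          exact h2 i j (fun h => hne (by rw [h])) k l

theorem pf_sel : T_SEL := by
  intro e m
  refine ⟨m * e ^ 2 + 1, ?_⟩
  intro Ω _ _ a h q s hq hqe hs hse ha hh hc t ht
  exact aux e Ω a h q s hq hqe hs hse ha hh hc m t ht

end Pool.Agent.H58.NY.SEL
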